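import Mathlib
set_option autoImplicit false

open NumberField

namespace Pool.Agent.H471R2.St

/-- The group `C₂ × C₂`, written multiplicatively. -/
abbrev V22 := Multiplicative (ZMod 2) × Multiplicative (ZMod 2)

/-- `ρ` makes the abelian group `M` an `F₂[C₂ × C₂]`-module. -/
structure IsF2Mod {M : Type} [AddCommGroup M] (ρ : V22 → M → M) : Prop where
  two : ∀ x : M, x + x = 0
  map_add : ∀ g x y, ρ g (x + y) = ρ g x + ρ g y
  one : ∀ x, ρ 1 x = x
  mul : ∀ g h x, ρ (g * h) x = ρ g (ρ h x)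

/-- Indecomposable: nonzero, and not the direct sum of two nonzero submodules. -/
def Indec {M : Type} [AddCommGroup M] (ρ : V22 → M → M) : Prop :=
  Nontrivial M ∧ ∀ U W : AddSubgroup M, (∀ g, ∀ x ∈ U, ρ g x ∈ U) →
    (∀ g, ∀ x ∈ W, ρ g x ∈ W) → IsCompl U W → U = ⊥ ∨ W = ⊥

/-- `M` is a direct summand of the 2-torsion of `C`: there are additive equivariant maps
`i : M → C[2]` and `p : C[2] → M` with `p ∘ i = id`. Here `C₂ × C₂` acts on `C` by `act`. -/
def SummandOfTwoTorsion {C : Type} [CommGroup C] (act : V22 → C → C) {M : Type} [AddCommGroup M]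
    (ρ : V22 → M → M) : Prop :=
  ∃ (i : M → C) (p : C → M), (∀ x y, i (x + y) = i x * i y) ∧ (∀ x, i x ^ 2 = 1) ∧
    (∀ g x, i (ρ g x) = act g (i x)) ∧ (∀ x y, x ^ 2 = 1 → y ^ 2 = 1 → p (x * y) = p x + p y) ∧
    (∀ g x, x ^ 2 = 1 → p (act g x) = ρ g (p x)) ∧ (∀ x, p (i x) = x)

/-- The action of a field automorphism on the ideal class group. -/
noncomputable def galCl {K : Type} [Field K] [NumberField K] (g : K ≃ₐ[ℚ] K) :
    ClassGroup (𝓞 K) → ClassGroup (𝓞 K) :=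
  ClassGroup.mulEquiv (RingOfIntegers.mapRingEquiv (g : K ≃+* K))

/-- `M` is a direct summand of `Cl(K)[2]`, for an isomorphism `e` from `C₂ × C₂` to `Gal(K/ℚ)`. -/
def ArisesIn (K : Type) [Field K] [NumberField K] (e : V22 ≃* (K ≃ₐ[ℚ] K)) {M : Type}
    [AddCommGroup M] (ρ : V22 → M → M) : Prop :=
  SummandOfTwoTorsion (fun g => galCl (e g)) ρ

/-- `M` arises: for some number field `K`, Galois over `ℚ`, with an isomorphism `e` from `C₂ × C₂`
to its Galois group, `M` is a direct summand of `Cl(K)[2]`. -/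
def Arises {M : Type} [AddCommGroup M] (ρ : V22 → M → M) : Prop :=
  ∃ (K : Type) (_ : Field K) (_ : NumberField K) (_ : IsGalois ℚ K) (e : V22 ≃* (K ≃ₐ[ℚ] K)),
    ArisesIn K e ρ

/-- Isomorphism of modules. -/
def ModIso {M N : Type} [Add M] [Add N] (ρ : V22 → M → M) (π : V22 → N → N) :
    Prop :=
  ∃ e : M ≃+ N, ∀ g x, e (ρ g x) = π g (e x)

/-- `z` if `c` is the generator of `C₂`, and `0` if `c = 1`. -/
def sel {S : Type} [Zero S] (c : Multiplicative (ZMod 2)) (z : S) : S := if c = 1 then 0 else z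

/-- The module `T ⊕ S` of a pair of additive maps `A, B : T → S`: the generators of the
two factors `C₂` act by `(x, y) ↦ (x, y + A x)` and `(x, y) ↦ (x, y + B x)`. -/
def kr {T S : Type} [AddCommGroup S] (A B : T → S) (g : V22) (x : T × S) : T × S :=
  (x.1, x.2 + sel g.1 (A x.1) + sel g.2 (B x.1))

/-- `Ωⁿ(F₂)`: the pair `F₂ⁿ⁺¹ → F₂ⁿ` of the maps forgetting the first or the last coordinate. -/
def mI (n : ℕ) : V22 → (Fin (n + 1) → ZMod 2) × (Fin n → ZMod 2) → (Fin (n + 1) → ZMod 2) × (Fin n → ZMod 2) :=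
  kr (fun u j => u j.succ) (fun u j => u j.castSucc)

/-- `Ω⁻ⁿ(F₂)`: the pair `F₂ⁿ → F₂ⁿ⁺¹` of the maps putting a zero first or last. -/
def mP (n : ℕ) : V22 → (Fin n → ZMod 2) × (Fin (n + 1) → ZMod 2) → (Fin n → ZMod 2) × (Fin (n + 1) → ZMod 2) :=
  kr (fun u => Fin.cons 0 u) (fun u => Fin.snoc u 0)

/-- The pair `(1, X)` on `F₂[X]/(f)`. -/
noncomputable def mR (f : Polynomial (ZMod 2)) : V22 → AdjoinRoot f × AdjoinRoot f → AdjoinRoot f × AdjoinRoot f :=
  kr (fun u => u) (fun u => AdjoinRoot.root f * u)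

/-- The pair `(X, 1)` on `F₂[X]/(f)`. -/
noncomputable def mR' (f : Polynomial (ZMod 2)) : V22 → AdjoinRoot f × AdjoinRoot f → AdjoinRoot f × AdjoinRoot f :=
  kr (fun u => AdjoinRoot.root f * u) (fun u => u)

/-- `M` is isomorphic to `mI n`. -/
def IsoI {M : Type} [Add M] (ρ : V22 → M → M) (n : ℕ) : Prop := ModIso ρ (mI n)

/-- `M` is isomorphic to `mP n`. -/
def IsoP {M : Type} [Add M] (ρ : V22 → M → M) (n : ℕ) : Prop := ModIso ρ (mP n)

/-- `M` is isomorphic to `mR f`. -/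
def IsoR {M : Type} [Add M] (ρ : V22 → M → M) (f : Polynomial (ZMod 2)) : Prop := ModIso ρ (mR f)

/-- `M` is isomorphic to `mR' f`. -/
def IsoR' {M : Type} [Add M] (ρ : V22 → M → M) (f : Polynomial (ZMod 2)) : Prop := ModIso ρ (mR' f)

/-- `M` is isomorphic to `mR (pⁿ)` with `p` irreducible and `n deg p ≤ 5`, or `deg p = 1`
and `n ≤ 6`. -/
def ListedR {M : Type} [Add M] (ρ : V22 → M → M) : Prop :=
  ∃ (p : Polynomial (ZMod 2)) (n : ℕ), Irreducible p ∧ 1 ≤ n ∧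
    (n * p.natDegree ≤ 5 ∨ (p.natDegree = 1 ∧ n ≤ 6)) ∧ IsoR ρ (p ^ n)

/-- The list of 44 modules. -/
def Listed {M : Type} [Add M] (ρ : V22 → M → M) : Prop :=
  (∃ n ≤ 5, IsoI ρ n) ∨ (∃ n ≤ 7, 1 ≤ n ∧ IsoP ρ n) ∨ ListedR ρ ∨
    (∃ n ≤ 6, 1 ≤ n ∧ IsoR' ρ (Polynomial.X ^ n))

end Pool.Agent.H471R2.St
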