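import Pool.Agent.H471R2.Bq.Main
import Pool.Agent.H471R2.Stmt
set_option autoImplicit false
set_option linter.all false

open Polynomial NumberField Ideal

namespace Pool.Agent.H471R2.St

variable {M : Type} [AddCommGroup M] {ρ : V22 → M → M}

theorem IsF2Mod.smul2 (h : IsF2Mod ρ) : ∀ x : M, (2 : ℕ) • x = 0 := fun x => by
  rw [two_nsmul]; exact h.two x

/-- the linear representation -/
def rep (h : IsF2Mod ρ) : letI := AddCommGroup.zmodModule h.smul2
    Representation (ZMod 2) V22 M :=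
  letI := AddCommGroup.zmodModule h.smul2
  { toFun := fun g => AddMonoidHom.toZModLinearMap 2 (AddMonoidHom.mk' (ρ g) (h.map_add g))
    map_one' := LinearMap.ext fun x => h.one x
    map_mul' := fun g g' => LinearMap.ext fun x => h.mul g g' x }

theorem rep_apply (h : IsF2Mod ρ) (g : V22) (x : M) :
    letI := AddCommGroup.zmodModule h.smul2
    rep h g x = ρ g x := rfl

theorem sel_smul {S : Type} [AddCommGroup S] [Module (ZMod 2) S] (c : Multiplicative (ZMod 2)) (z : S) :
    sel c z = (Multiplicative.toAdd c) • z := by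
  unfold sel
  by_cases h : c = 1
  · rw [if_pos h, h, toAdd_one, zero_smul]
  · rw [if_neg h]
    have : Multiplicative.toAdd c = 1 := by revert c; decide
    rw [this, one_smul]

theorem kr_eq {T S : Type} [AddCommGroup T] [Module (ZMod 2) T] [AddCommGroup S] [Module (ZMod 2) S]
    (A B : T →ₗ[ZMod 2] S) (g : V22) (x : T × S) : kr A B g x = kron A B g x := by
  obtain ⟨x, y⟩ := x
  rw [kron_apply, kr, sel_smul, sel_smul]

theorem indec_rep (h : IsF2Mod ρ) (hi : Indec ρ) :
    letI := AddCommGroup.zmodModule h.smul2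
    Indecomposable (rep h) := by
  letI := AddCommGroup.zmodModule h.smul2
  refine ⟨hi.1, ?_⟩
  intro U W hU hW hc
  have hc' : IsCompl U.toAddSubgroup W.toAddSubgroup := by
    constructor
    · rw [disjoint_iff, eq_bot_iff]
      intro x hx
      have h1 : x ∈ U ⊓ W := hx
      rw [disjoint_iff.1 hc.1] at h1
      exact h1
    · rw [codisjoint_iff, eq_top_iff]
      intro x _
      have h1 : x ∈ U ⊔ W := by rw [codisjoint_iff.1 hc.2]; trivial
      obtain ⟨y, hy, z, hz, rfl⟩ := Submodule.mem_sup.1 h1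
      exact AddSubgroup.add_mem _ (AddSubgroup.mem_sup_left hy) (AddSubgroup.mem_sup_right hz)
  rcases hi.2 _ _ (fun g x hx => hU g x hx) (fun g x hx => hW g x hx) hc' with h0 | h0
  · left
    rw [eq_bot_iff]
    intro x hx
    have h1 : x ∈ U.toAddSubgroup := hx
    rw [h0] at h1
    exact h1
  · right
    rw [eq_bot_iff]
    intro x hx
    have h1 : x ∈ W.toAddSubgroup := hx
    rw [h0] at h1
    exact h1

theorem iso_of {T S : Type} [AddCommGroup T] [Module (ZMod 2) T] [AddCommGroup S] [Module (ZMod 2) S]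
    (h : IsF2Mod ρ) {A B : T →ₗ[ZMod 2] S}
    (hi : letI := AddCommGroup.zmodModule h.smul2
      RepIso (rep h) (kron A B)) : ModIso ρ (kr A B) := by
  letI := AddCommGroup.zmodModule h.smul2
  obtain ⟨e, he⟩ := hi
  refine ⟨e.toAddEquiv, fun g x => ?_⟩
  rw [kr_eq]
  exact he g x

theorem upper (h : IsF2Mod ρ) (hi : Indec ρ) (ha : Arises ρ) : Listed ρ := by
  letI := AddCommGroup.zmodModule h.smul2
  obtain ⟨K, _, _, _, e, i, p, i1, i2, i3, p1, p2, pi⟩ := ha
  have hs : IsSummand K e (rep h) := ⟨i, p, i1, i2, i3, p1, p2, pi⟩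
  rcases arises_inList hs (indec_rep h hi) with ⟨n, hn, h1⟩ | ⟨n, h2, h3, h1⟩ | ⟨q, n, hq, hn, hb, h1⟩ |
    ⟨n, h2, h3, h1⟩
  · exact Or.inl ⟨n, hn, iso_of h h1⟩
  · exact Or.inr (Or.inl ⟨n, h3, h2, iso_of h h1⟩)
  · exact Or.inr (Or.inr (Or.inl ⟨q, n, hq, hn, hb, iso_of h h1⟩))
  · exact Or.inr (Or.inr (Or.inr ⟨n, h3, h2, iso_of h h1⟩))

end Pool.Agent.H471R2.St
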