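import Pool.Agent.H471R2.Kr.Class
set_option autoImplicit false
set_option linter.all false

open Polynomial NumberField

namespace Pool.Agent.H471R2

/-- The group `C₂ × C₂`, written multiplicatively. -/
abbrev V22 := Multiplicative (ZMod 2) × Multiplicative (ZMod 2)

/-- The action of a field automorphism on the ideal class group. -/
noncomputable def galCl {K : Type*} [Field K] [NumberField K] (g : K ≃ₐ[ℚ] K) :
    ClassGroup (𝓞 K) ≃* ClassGroup (𝓞 K) :=
  ClassGroup.mulEquiv (RingOfIntegers.mapRingEquiv (g : K ≃+* K))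

/-- `M` (with the action `ρ` of `C₂ × C₂`) is isomorphic to a direct summand of `Cl(K)[2]`, where
`C₂ × C₂` is identified with the Galois group by `e`: there are an additive equivariant
map `i : M → Cl(K)[2]` and an additive equivariant map `p : Cl(K)[2] → M` with `p ∘ i = id`. -/
def IsSummand (K : Type*) [Field K] [NumberField K] (e : V22 ≃* (K ≃ₐ[ℚ] K))
    {M : Type*} [AddCommGroup M] [Module (ZMod 2) M] (ρ : Representation (ZMod 2) V22 M) : Prop :=
  ∃ (i : M → ClassGroup (𝓞 K)) (p : ClassGroup (𝓞 K) → M),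
    (∀ x y, i (x + y) = i x * i y) ∧ (∀ x, i x ^ 2 = 1) ∧
    (∀ g x, i (ρ g x) = galCl (e g) (i x)) ∧
    (∀ x y, x ^ 2 = 1 → y ^ 2 = 1 → p (x * y) = p x + p y) ∧
    (∀ g x, x ^ 2 = 1 → p (galCl (e g) x) = ρ g (p x)) ∧
    (∀ x, p (i x) = x)

/-- Indecomposable representation: nonzero, and not the direct sum of two nonzero
subrepresentations. -/
def Indecomposable {M : Type*} [AddCommGroup M] [Module (ZMod 2) M]
    (ρ : Representation (ZMod 2) V22 M) : Prop :=
  Nontrivial M ∧ ∀ U W : Submodule (ZMod 2) M, (∀ g, ∀ x ∈ U, ρ g x ∈ U) →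
    (∀ g, ∀ x ∈ W, ρ g x ∈ W) → IsCompl U W → U = ⊥ ∨ W = ⊥

/-- Isomorphism of representations. -/
def RepIso {M N : Type*} [AddCommGroup M] [Module (ZMod 2) M] [AddCommGroup N] [Module (ZMod 2) N]
    (ρ : Representation (ZMod 2) V22 M) (π : Representation (ZMod 2) V22 N) : Prop :=
  ∃ e : M ≃ₗ[ZMod 2] N, ∀ g x, e (ρ g x) = π g (e x)

/-- The module `T ⊕ S` attached to a pair of linear maps `A, B : T → S`: the element
`(g₁, g₂)` of `C₂ × C₂` acts by `(x, y) ↦ (x, y + g₁ A x + g₂ B x)`. -/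
def kron {T S : Type*} [AddCommGroup T] [Module (ZMod 2) T] [AddCommGroup S] [Module (ZMod 2) S]
    (A B : T →ₗ[ZMod 2] S) : Representation (ZMod 2) V22 (T × S) where
  toFun g := LinearMap.id + (Multiplicative.toAdd g.1) • Kr.op A + (Multiplicative.toAdd g.2) • Kr.op B
  map_one' := by
    ext x <;> simp
  map_mul' g h := by
    refine LinearMap.ext fun x => ?_
    rw [Module.End.mul_apply]
    simp only [LinearMap.add_apply, LinearMap.smul_apply, LinearMap.id_apply, Kr.op_apply,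
      Prod.fst_mul, Prod.snd_mul, toAdd_mul]
    refine Prod.ext ?_ ?_
    · simp
    · simp only [Prod.snd_add, Prod.fst_add, Prod.smul_snd, Prod.smul_fst, smul_zero, add_zero,
        add_smul]
      abel

theorem kron_apply {T S : Type*} [AddCommGroup T] [Module (ZMod 2) T] [AddCommGroup S]
    [Module (ZMod 2) S] (A B : T →ₗ[ZMod 2] S) (g : V22) (x : T) (y : S) :
    kron A B g (x, y) = (x, y + (Multiplicative.toAdd g.1) • A x + (Multiplicative.toAdd g.2) • B x) := by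
  change (LinearMap.id + (Multiplicative.toAdd g.1) • Kr.op A +
    (Multiplicative.toAdd g.2) • Kr.op B : (T × S) →ₗ[ZMod 2] (T × S)) (x, y) = _
  simp only [LinearMap.add_apply, LinearMap.smul_apply, LinearMap.id_apply, Kr.op_apply]
  refine Prod.ext ?_ ?_
  · simp
  · simp

/-- The list of modules: `I n` (`n ≤ 5`, with `I 0` the trivial module and `I n = Ωⁿ`), `P n`
(`1 ≤ n ≤ 7`, `P n = Ω⁻ⁿ`), and the modules given by the pairs `(1, X)` on `F₂[X]/(pⁿ)` with `p`
irreducible and `n deg p ≤ 5`, or `deg p = 1` and `n ≤ 6`, and `(X, 1)` on `F₂[X]/(Xⁿ)`, `n ≤ 6`. -/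
def InList {M : Type*} [AddCommGroup M] [Module (ZMod 2) M]
    (ρ : Representation (ZMod 2) V22 M) : Prop :=
  (∃ n, n ≤ 5 ∧ RepIso ρ (kron (Kr.IA n) (Kr.IB n))) ∨
  (∃ n, 1 ≤ n ∧ n ≤ 7 ∧ RepIso ρ (kron (Kr.PA n) (Kr.PB n))) ∨
  (∃ (p : (ZMod 2)[X]) (n : ℕ), Irreducible p ∧ 1 ≤ n ∧
    (n * p.natDegree ≤ 5 ∨ (p.natDegree = 1 ∧ n ≤ 6)) ∧
    RepIso ρ (kron LinearMap.id (Kr.mulX (p ^ n)))) ∨
  (∃ n : ℕ, 1 ≤ n ∧ n ≤ 6 ∧ RepIso ρ (kron (Kr.mulX (X ^ n)) LinearMap.id))

end Pool.Agent.H471R2
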